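import Pool.Agent.H38R2.CG.Stubs

/-!
# PROJECT CN: class numbers of `ℚ(√p)` for almost all primes `p`

Goal (MP_d0fd9b_nt): for `0 < δ < 1/2` all but `O(X exp(-(log X)^(δ/16)))` of the squarefree `d ≤ X`, in
particular almost all primes `p ≤ X`, have class number `h(d) ≤ √d / (log d)^(3/2 - δ)`, and
`∑_{p ≤ X} h(p) ≤ C X^(3/2) / (log X)^(5/2 - δ)`.

Inputs: `StmtRGB` (regulators, `Pool.Agent.Q276.PL.rgb_true`), the ideal counting theorem `P_N3`, the truncated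
series `P_N3a`, Polya-Vinogradov `P_PV` (all proved: `Pool.Agent.W627.LT.Base`; `T_N0`, `T_N0d`, `T_KR`, `T_PV` in
`Pool/Agent/H38R2/CG`).  Packages may import anything; each package may use the earlier statements as hypotheses
(in the form of the statements below) and `P_N0`, `P_N0d`, `P_N3`, `P_N3a`, `P_PV`, `P_KR` as hypotheses too, so that
only this file (and Mathlib) has to be imported.
-/

set_option autoImplicit false

namespace Pool.Agent.P8H14.CN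

open Finset Filter NumberField Pool.Agent.H38R2.CG
open scoped Classical

noncomputable section

/-- The discriminant of `ℚ(√d)` for squarefree `d > 1`. -/
def dsc (d : ℕ) : ℕ := if d % 4 = 1 then d else 4 * d

/-- There is a unit `(t + u √D) / 2`, `t, u > 0`, of size at most `B` of the discriminant `D`. -/
def SmallUnit (D : ℕ) (B : ℝ) : Prop := ∃ t u : ℕ, 0 < t ∧ 0 < u ∧
  ((t : ℤ) ^ 2 - (D : ℤ) * (u : ℤ) ^ 2 = 4 ∨ (t : ℤ) ^ 2 - (D : ℤ) * (u : ℤ) ^ 2 = -4) ∧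
  ((t : ℝ) + (u : ℝ) * √(D : ℝ)) / 2 ≤ B

/-- RGB: few squarefree `d ≤ X` with a small unit (PROVED: `Pool.Agent.Q276.PL.rgb_true`). -/
def StmtRGB : Prop := ∀ δ : ℝ, 0 < δ → δ < 1 / 2 → ∃ M : ℝ, ∀ X : ℕ, 2 ≤ X →
  (((Finset.Icc 2 X).filter (fun d => Squarefree d ∧
    SmallUnit (dsc d) (Real.exp (Real.log X ^ (3 / 2 - δ))))).card : ℝ) ≤
    M * X * Real.exp (-(Real.log X ^ (δ / 8)))

/-- The class number formula. -/
def StmtCNF : Prop := ∀ (K : Type) [Field K] [NumberField K] (d : ℕ), 1 < d → Squarefree d →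
  Module.finrank ℚ K = 2 → (∃ x : K, x ^ 2 = (d : K)) →
  2 * Units.regulator K * (classNumber K : ℝ) = √(dsc d : ℝ) * Lone (dsc d)

/-- The regulator is the logarithm of a unit `(t + u √D) / 2`, `t, u > 0`. -/
def StmtREG : Prop := ∀ (K : Type) [Field K] [NumberField K] (d : ℕ), 1 < d → Squarefree d →
  Module.finrank ℚ K = 2 → (∃ x : K, x ^ 2 = (d : K)) → ∃ t u : ℕ, 0 < t ∧ 0 < u ∧
  ((t : ℤ) ^ 2 - (dsc d : ℤ) * (u : ℤ) ^ 2 = 4 ∨ (t : ℤ) ^ 2 - (dsc d : ℤ) * (u : ℤ) ^ 2 = -4) ∧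
  Units.regulator K = Real.log (((t : ℝ) + (u : ℝ) * √(dsc d : ℝ)) / 2)

/-- The class number of `ℚ(√d)` is at most `√d / (log d) ^ (3/2 - δ)`. -/
def GoodC (δ : ℝ) (d : ℕ) : Prop := ∀ (K : Type) [Field K] [NumberField K],
  Module.finrank ℚ K = 2 → (∃ x : K, x ^ 2 = (d : K)) →
  (classNumber K : ℝ) ≤ √(d : ℝ) / Real.log d ^ (3 / 2 - δ)

/-- The odd part of `m`. -/
def od (m : ℕ) : ℕ := m / 2 ^ padicValNat 2 m

/-- **MUL** (50 lines).  Deliver `mul : S_MUL`.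

Proof: `padicValNat.mul`, hence `od (m n) = od m * od n` (exact divisions), `jacobiSym.mul_right`,
`pow_add`; `|jacobiSym| ≤ 1` by `jacobiSym.trichotomy`, `|chi2 D| ≤ 1`, `1 ≤ od m ≤ m`, `od m` odd. -/
def S_MUL : Prop := (∀ (D : ℤ) (m n : ℕ), 1 ≤ m → 1 ≤ n → chi D (m * n) = chi D m * chi D n) ∧
  (∀ (D : ℤ) (n : ℕ), |chi D n| ≤ 1) ∧
  (∀ m n : ℕ, 1 ≤ m → 1 ≤ n → od (m * n) = od m * od n) ∧
  (∀ m : ℕ, 1 ≤ m → Odd (od m) ∧ 1 ≤ od m ∧ od m ≤ m ∧ od m ∣ m)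

/-- **OFF** (80 lines).  Deliver `off : S_MUL → P_PV → S_OFF`.

Proof.  By definition `chi D m = chi2 D ^ a * jacobiSym D (od m)`, `a = padicValNat 2 m`, and `chi2 D` depends on
`D % 8` only.  Split the sum over `D` into the eight classes `D % 8 = c`; in each class the factor `chi2 D ^ a` is a
constant of absolute value at most `1`, and the sum of `jacobiSym D (od m)` over the `D` of `Ioc 0 X` with
`D % 8 = c` is at most `C √(od m) log (od m)` by `Pool.Agent.H38R2.CG.LM2.ap_sum` (or whatever namespace; file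
Pool/Agent/H38R2/CG/LM2.lean, line 126: `ap_sum C hPV m hodd hsq W c hc hco A B hAB` with `W = 8`).
So `8 C √m log (m + 1)` works. -/
def S_OFF : Prop := ∃ C : ℝ, 0 < C ∧ ∀ X m : ℕ, 1 ≤ m → ¬ IsSquare (od m) →
  |∑ D ∈ Icc 1 X, (chi (D : ℤ) m : ℝ)| ≤ C * √(m : ℝ) * Real.log ((m : ℝ) + 1)

/-- **DIAG** (120 lines).  Deliver `diag : S_MUL → S_DIAG`.

Proof.  Every `m ≥ 1` is `2 ^ a * g * s ^ 2` with `g` squarefree and odd, `s` odd (`Nat.sq_mul_squarefree (od m)`);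
let `g = q m`.  `od m * od n` is a square iff `q m = q n`.  So the left side is `∑_g (∑_{n ∈ Ioc z N, q n = g} 1/n)^2`
(`g ∈ Icc 1 N`).  For `n > z`: `1 / n ≤ z^(-1/8) n^(-7/8)`, and
`∑_{q n = g} n^(-7/8) ≤ g^(-7/8) ∑_{a ≥ 0} 2^(-7a/8) ∑_{s ≥ 1} s^(-7/4) = c g^(-7/8)` (the pairs `(a, s)` determine `n`).
So the left side is at most `z^(-1/4) c^2 ∑_g g^(-7/4) ≤ C z^(-1/4)` (`Real.summable_nat_rpow_inv`,
`summable_geometric_of_lt_one`). -/
def S_DIAG : Prop := ∃ C : ℝ, 0 < C ∧ ∀ z N : ℕ, 1 ≤ z →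
  ∑ m ∈ Ioc z N, ∑ n ∈ Ioc z N, (if IsSquare (od (m * n)) then 1 / ((m : ℝ) * n) else 0) ≤
    C * (z : ℝ) ^ (-(1 / 4) : ℝ)

/-- **SEC** (80 lines): second moment over all `D ≤ X`.  Deliver `sec : S_MUL → S_OFF → S_DIAG → S_SEC`.

Proof.  Expand the square, exchange the sums, `chi D m * chi D n = chi D (m n)`.  Pairs with `od (m n)` a square: at
most `X / (m n)` each (DIAG).  Other pairs: at most `C √(m n) log (m n + 1) / (m n) ≤ C log (N² + 1) m^(-1/2) n^(-1/2)`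
(OFF), and `∑_{n ≤ N} n^(-1/2) ≤ 2 √N`: in total `4 C N log (N² + 1)`, where `N ≤ X^(3/4) ≤ X` and
`log (X² + 1) ≤ 3 log X` for `X ≥ 2`. -/
def S_SEC : Prop := ∃ C : ℝ, 0 < C ∧ ∀ X z N : ℕ, 2 ≤ X → 1 ≤ z → (N : ℝ) ≤ (X : ℝ) ^ (3 / 4 : ℝ) →
  ∑ D ∈ Icc 1 X, (∑ n ∈ Ioc z N, (chi (D : ℤ) n : ℝ) / n) ^ 2 ≤
    C * (X * (z : ℝ) ^ (-(1 / 4) : ℝ) + (X : ℝ) ^ (3 / 4 : ℝ) * Real.log X)

/-- **LBD** (120 lines): few large values of `L(1, χ_D)`.  Deliver `lbd : S_MUL → S_SEC → P_N3a → S_LBD`.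

Proof.  Let `X` be large (small `X`: enlarge `M`; the left side is at most `X`).  `z = ⌊exp ((log X)^(η/2))⌋₊`
(`1 ≤ z ≤ X^(3/4)`, `z ≥ exp(..)/2`), `N = ⌊X^(3/4)⌋₊`.  Let `√X < D ≤ X` be fundamental with `(log D)^η < Lone D`.
By `P_N3a` (with `N`): `Lone D ≤ ∑_{n ≤ z} 1/n + |∑_{z < n ≤ N} chi D n / n| + C √X log X / N`, the last term is `≤ 1`,
the first at most `1 + log z ≤ 1 + (log X)^(η/2)`.  As `(log D)^η ≥ (log X / 2)^η ≥ 3 + (log X)^(η/2)`, the sum over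
`z < n ≤ N` is at least `1` in absolute value.  So the number of such `D` is at most `√X +` the left side of SEC `≤
√X + C (2 X exp(-(log X)^(η/2)/4) + X^(3/4) log X)`, and `√X + X^(3/4) log X ≤ X exp(-(log X)^(η/2)/4)` for large `X`
(as `η/2 ≤ 1/2`). -/
def S_LBD : Prop := ∀ η : ℝ, 0 < η → η ≤ 1 → ∃ M : ℝ, ∀ X : ℕ, 2 ≤ X →
  (((Icc 2 X).filter (fun D => IsFund D ∧ Real.log D ^ η < Lone D)).card : ℝ) ≤
    M * X * Real.exp (-(Real.log X ^ (η / 2) / 4))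

/-- **CNF** (80 lines): the class number formula `2 R h = √D L(1, χ_D)`.
Deliver `cnf : P_N0 → P_N0d → P_N3 → StmtCNF`.

Proof.  `D = dsc d` is fundamental (`IsFund`) and `discr K = D` (`P_N0d`; `rfl`/cases with `dsc`).  `P_N3` gives that the
number of ideals of norm `≤ N` over `N` tends to `Lone D`; `N3h.lim_H K ⊤` (file Pool/Agent/H38R2/CG/N3.lean, imports
only Stubs; see `htop'`, `heq` in the proof of `T_N3` there) that it tends to `Nat.card (ClassGroup) * N3h.kap K`,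
`kap K = 2 ^ r₁ (2π) ^ r₂ R / (w √|discr K|)`.  `P_N0` gives two different real embeddings, so `r₂ = 0`, `r₁ = 2`
(`card_add_two_mul_card_eq_rank`), and `w = 2` (the torsion units of a field with a real embedding are `±1`:
`Pool.Agent.R945.RQ...tors (φ : K →+* ℝ) : torsionOrder K = 2` in Pool/Agent/R945/RQ/C.lean, line 71, or
Mathlib). -/
def S_CNF : Prop := StmtCNF

/-- **REG** (120 lines): the regulator is the logarithm of a unit `(t + u √D) / 2`.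
Deliver `reg : P_N0 → P_N0d → StmtREG`.

Proof.  See `reg_eq` in Pool/Agent/R945/RQ/C.lean (line 92; the same for
`p % 4 = 1`).  Two real places, unit rank one; `regulator_eq_det`; take a fundamental unit `ε` with `|σ ε| > 1` (the
regulator is not zero), change sign and invert: `σ ε > 1`.  `Emb.int1`: `σ ε = (u + v √D)/2`, `τ ε = (u - v √D)/2`,
`σ ε τ ε = ± 1`, hence `u > 0`, `v > 0`, `u² - D v² = ± 4`. -/
def S_REG : Prop := StmtREG

/-- **FIN** (150 lines): the exceptional set.  Deliver `fin : StmtRGB → StmtCNF → StmtREG → S_LBD → S_FIN`.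

Proof.  `X` large (small `X`: enlarge `M`).  Let `√X < d ≤ X` be squarefree, outside the set of `StmtRGB` for `δ/2`
(at most `M X exp(-(log X)^(δ/16))` exceptions) and with `D = dsc d ≤ 4 X` outside the set of LBD for `η = δ/4` and `4 X`
(`d ↦ dsc d` is injective, `IsFund (dsc d)`; at most `M 4 X exp(-(log (4 X))^(δ/8)/4) ≤ M' X exp(-(log X)^(δ/16))`).
By REG `R = log ((t + u √D)/2) > (log X)^(3/2 - δ/2)`, by CNF
`h = √D Lone D / (2 R) ≤ √(4 d) (log (4 X))^(δ/4) / (2 (log X)^(3/2 - δ/2)) ≤ √d / (log X)^(3/2 - δ)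
≤ √d / (log d)^(3/2 - δ)` (`(log (4X))^(δ/4) ≤ (log X)^(δ/2)` for large `X`).  The `d ≤ √X` contribute `√X`. -/
def S_FIN : Prop := ∀ δ : ℝ, 0 < δ → δ < 1 / 2 → ∃ M : ℝ, ∀ X : ℕ, 2 ≤ X →
  (((Icc 2 X).filter (fun d => Squarefree d ∧ ¬ GoodC δ d)).card : ℝ) ≤
    M * X * Real.exp (-(Real.log X ^ (δ / 16)))

/-- **CLP** (60 lines): almost all primes.  Deliver `clp : S_FIN → S_CLP`.

Proof.  Primes are squarefree; `π(X) ≥ c X / log X` (library, e.g. grep Chebyshev; or any form), and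
`exp(-(log X)^(δ/16)) log X → 0`. -/
def S_CLP : Prop := ∀ δ : ℝ, 0 < δ → δ < 1 / 2 → Tendsto (fun X : ℕ =>
  (((Icc 2 X).filter (fun p => p.Prime ∧ ¬ GoodC δ p)).card : ℝ) / ((Icc 2 X).filter Nat.Prime).card)
  atTop (nhds 0)

/-- The class number of the quadratic fields that contain a square root of `d` (they are all isomorphic). -/
def hq (d : ℕ) : ℕ := sInf {n : ℕ | ∃ (K : Type) (_ : Field K) (_ : NumberField K),
  Module.finrank ℚ K = 2 ∧ (∃ x : K, x ^ 2 = (d : K)) ∧ classNumber K = n}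

/-- **TRV** (80 lines): the trivial bound.  Deliver `trv : StmtCNF → StmtREG → P_N3a → S_MUL → S_TRV`.

Proof.  `|Lone D| ≤ ∑_{n ≤ D} 1/n + C √D log D / D ≤ C' log D` by `P_N3a` with `N = D`, and the unit of REG is at least
`(1 + √D)/2 ≥ (1 + √5)/2` (`dsc d ≥ 5`), so `R ≥ log ((1 + √5)/2) > 0`. -/
def S_TRV : Prop := ∃ C : ℝ, 0 < C ∧ ∀ (K : Type) [Field K] [NumberField K] (d : ℕ), 1 < d → Squarefree d →
  Module.finrank ℚ K = 2 → (∃ x : K, x ^ 2 = (d : K)) → (classNumber K : ℝ) ≤ C * √(d : ℝ) * Real.log d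

/-- **AVG** (100 lines): the mean value over the primes.  Deliver `avg : S_FIN → S_TRV → S_AVG`.

Proof.  `hq p` is the class number of some `K` as in the definition (`Nat.sInf_mem`; if the set is empty `hq p = 0`).
`GoodC δ p`: `hq p ≤ √p / (log p)^(3/2 - δ)`, the sum over `√X < p ≤ X` of this is at most
`√X / ((log X)/2)^(3/2 - δ) π(X)` and `π(X) ≤ C X / log X` (library); the sum over `p ≤ √X` is at most `X` (up to a
constant).  Not good: at most `M X exp(-(log X)^(δ/16))` primes, each with `hq p ≤ C √X log X`, and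
`exp(-(log X)^(δ/16)) (log X)^(7/2)` is bounded. -/
def S_AVG : Prop := ∀ δ : ℝ, 0 < δ → δ < 1 / 2 → ∃ M : ℝ, ∀ X : ℕ, 2 ≤ X →
  (∑ p ∈ (Icc 2 X).filter Nat.Prime, (hq p : ℝ)) ≤ M * (X : ℝ) ^ (3 / 2 : ℝ) / Real.log X ^ (5 / 2 - δ)

end

end Pool.Agent.P8H14.CN
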