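import Pool.Agent.P8H14.CN.Stm

/-! PROJECT CN, second part: moments, and a class number with many primes. -/

set_option autoImplicit false

namespace Pool.Agent.P8H14.CN

open Finset Filter NumberField Pool.Agent.H38R2.CG
open scoped Classical

noncomputable section

/-- **MOM** (100 lines): all moments.  Deliver `mom : S_FIN → S_TRV → S_MOM`.

Proof.  As AVG (`Pool.Agent.P8H61.CN.Avg`), with `hq p ^ k`: good primes `p > √X`: `hq p ^ k ≤ (√X / (log X / 2)^(3/2 - δ))^k`,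
`π(X) ≤ C X / log X`; primes `p ≤ √X`: `hq p ^ k ≤ (C √p log p)^k ≤ (C X^(1/4) log X)^k` (TRV), at most `√X` of them;
bad primes: at most `M X exp(-(log X)^(δ/16))`, each `(C √X log X)^k`. -/
def S_MOM : Prop := ∀ δ : ℝ, 0 < δ → δ < 1 / 2 → ∀ k : ℕ, 1 ≤ k → ∃ M : ℝ, ∀ X : ℕ, 2 ≤ X →
  (∑ p ∈ (Icc 2 X).filter Nat.Prime, (hq p : ℝ) ^ k) ≤
    M * (X : ℝ) ^ (1 + (k : ℝ) / 2) / Real.log X ^ (1 + (3 / 2 - δ) * k)

/-- **POP** (100 lines): a popular class number.  Deliver `pop : S_CLP → S_POP`.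

Proof.  By CLP (with the given `δ`) at least half of the primes `p ≤ X` are good, `X ≥ X₀`; at least `π(X) / 3 ≥ c₁ X / log X`
of them are good and larger than `√X`.  For these `hq p ≤ √p / (log p)^(3/2 - δ) ≤ √X / (log X / 2)^(3/2 - δ)
≤ 3 √X / (log X)^(3/2 - δ) =: T` (`2^(3/2) < 3`; `hq p` is the class number of some `K` as in the definition, or `0`
if there is none; by `Pool.Agent.P8H14.CN.exists_field` in P8H14/CN/Wd.lean there is one, so `1 ≤ hq p`,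
`classNumber_pos`).  By the pigeonhole principle (`Finset.exists_lt_card_fiber_of_mul_lt_card_of_maps_to` or
`exists_le_card_fiber...`) one value `h₀ ∈ [1, T]` is taken at least `c₁ X / (T log X) ≥ c √X (log X)^(1/2 - δ)` times. -/
def S_POP : Prop := ∀ δ : ℝ, 0 < δ → δ < 1 / 2 → ∃ c : ℝ, 0 < c ∧ ∃ X₀ : ℕ, ∀ X : ℕ, X₀ ≤ X →
  ∃ h₀ : ℕ, 1 ≤ h₀ ∧ (h₀ : ℝ) ≤ 3 * √(X : ℝ) / Real.log X ^ (3 / 2 - δ) ∧
    c * √(X : ℝ) * Real.log X ^ (1 / 2 - δ) ≤ (((Icc 2 X).filter (fun p => p.Prime ∧ hq p = h₀)).card : ℝ)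

end

end Pool.Agent.P8H14.CN
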