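import Mathlib

/-! The quadratic fields with a square root of a squarefree `d > 1` exist and are isomorphic. -/

set_option autoImplicit false

namespace Pool.Agent.P8H14.CN

open NumberField Polynomial IntermediateField

lemma not_sq {d : ℕ} (hd : 1 < d) (hs : Squarefree d) (q : ℚ) : q ^ 2 ≠ (d : ℚ) := by
  intro h
  have h1 : IsSquare ((d : ℕ) : ℚ) := ⟨q, by rw [← h]; ring⟩
  rw [Rat.isSquare_natCast_iff] at h1
  obtain ⟨r, hr⟩ := h1
  have h2 := hs r ⟨1, by rw [hr]; ring⟩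
  rw [Nat.isUnit_iff] at h2
  rw [h2] at hr
  omega

lemma irr {d : ℕ} (hd : 1 < d) (hs : Squarefree d) : Irreducible (X ^ 2 - C (d : ℚ)) :=
  X_pow_sub_C_irreducible_of_prime Nat.prime_two (fun b => not_sq hd hs b)

lemma mp {K : Type} [Field K] [NumberField K] {d : ℕ} (hd : 1 < d) (hs : Squarefree d) {x : K}
    (hx : x ^ 2 = (d : K)) : X ^ 2 - C (d : ℚ) = minpoly ℚ x :=
  minpoly.eq_of_irreducible_of_monic (irr hd hs) (by simp [hx])
    (monic_X_pow_sub_C _ (by norm_num))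

lemma deg {d : ℕ} : (X ^ 2 - C (d : ℚ)).natDegree = 2 := natDegree_X_pow_sub_C

lemma top {K : Type} [Field K] [NumberField K] {d : ℕ} (hd : 1 < d) (hs : Squarefree d)
    (h2 : Module.finrank ℚ K = 2) {x : K} (hx : x ^ 2 = (d : K)) : ℚ⟮x⟯ = ⊤ := by
  have h1 : Module.finrank ℚ ℚ⟮x⟯ = 2 := by
    rw [IntermediateField.adjoin.finrank (Algebra.IsIntegral.isIntegral x), ← mp hd hs hx, deg]
  refine IntermediateField.eq_of_le_of_finrank_eq le_top ?_
  rw [h1, IntermediateField.finrank_top', h2]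

theorem toRoot {K : Type} [Field K] [NumberField K] {d : ℕ} (hd : 1 < d) (hs : Squarefree d)
    (h2 : Module.finrank ℚ K = 2) {x : K} (hx : x ^ 2 = (d : K)) :
    Nonempty (K ≃ₐ[ℚ] AdjoinRoot (X ^ 2 - C (d : ℚ))) := by
  have e1 := IntermediateField.adjoinRootEquivAdjoin ℚ (α := x) (Algebra.IsIntegral.isIntegral x)
  rw [← mp hd hs hx, top hd hs h2 hx] at e1
  exact ⟨(e1.trans IntermediateField.topEquiv).symm⟩

theorem class_eq {K K' : Type} [Field K] [NumberField K] [Field K'] [NumberField K'] {d : ℕ}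
    (hd : 1 < d) (hs : Squarefree d) (h2 : Module.finrank ℚ K = 2) (h2' : Module.finrank ℚ K' = 2)
    (hx : ∃ x : K, x ^ 2 = (d : K)) (hx' : ∃ x : K', x ^ 2 = (d : K')) :
    classNumber K = classNumber K' := by
  obtain ⟨x, hx⟩ := hx
  obtain ⟨x', hx'⟩ := hx'
  obtain ⟨e⟩ := toRoot hd hs h2 hx
  obtain ⟨e'⟩ := toRoot hd hs h2' hx'
  rw [classNumber, classNumber]
  exact Fintype.card_congr
    (ClassGroup.mulEquiv (RingOfIntegers.mapRingEquiv (e.trans e'.symm).toRingEquiv)).toEquiv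

theorem exists_field {d : ℕ} (hd : 1 < d) (hs : Squarefree d) :
    ∃ (K : Type) (_ : Field K) (_ : NumberField K),
      Module.finrank ℚ K = 2 ∧ ∃ x : K, x ^ 2 = (d : K) := by
  haveI : Fact (Irreducible (X ^ 2 - C (d : ℚ))) := ⟨irr hd hs⟩
  have hne : (X ^ 2 - C (d : ℚ)) ≠ 0 := (irr hd hs).ne_zero
  have hfin : FiniteDimensional ℚ (AdjoinRoot (X ^ 2 - C (d : ℚ))) := (AdjoinRoot.powerBasis hne).finite
  haveI hN : NumberField (AdjoinRoot (X ^ 2 - C (d : ℚ))) :=
    { to_charZero := charZero_of_injective_algebraMap (algebraMap ℚ _).injective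
      to_finiteDimensional := by convert hfin }
  refine ⟨AdjoinRoot (X ^ 2 - C (d : ℚ)), inferInstance, hN, ?_, AdjoinRoot.root _, ?_⟩
  · have h1 := (AdjoinRoot.powerBasis hne).finrank
    rw [AdjoinRoot.powerBasis_dim, deg] at h1
    convert h1
  · have h1 := AdjoinRoot.eval₂_root (X ^ 2 - C (d : ℚ))
    simp only [eval₂_sub, eval₂_pow, eval₂_X, eval₂_C] at h1
    rw [sub_eq_zero] at h1
    rw [h1]
    simp

end Pool.Agent.P8H14.CN
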